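import Pool.Agent.Q264.Bes.Mono

/-!
# Dense increasing triple systems are dense at every scale

`X`, `Y`, `Z` are finite linear orders with at most `n` elements, and `H ⊆ X × Y × Z` is the graph of
a strictly increasing partial function of two variables.

* `Increasing H`: if `(x, y, z) ≠ (x', y', z')` are in `H` and `x ≤ x'`, `y ≤ y'` then `z < z'`;
* `spanned T`: the number of vertices of the triples of `T` (first, second and third coordinates).
-/

set_option autoImplicit false

namespace Pool.Agent.Results.MP_c82047_co.IncreasingSystems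

open Pool.Agent.Q264.Bes

universe u v w

theorem result :
    -- (1) some `k` vertices span at least `ε ^ 4 k ^ 2 / 20736` triples
    (∀ (X : Type u) (Y : Type v) (Z : Type w) [LinearOrder X] [LinearOrder Y] [LinearOrder Z]
      [Fintype X] [Fintype Y] [Fintype Z] (n k : ℕ), Fintype.card X ≤ n → Fintype.card Y ≤ n →
      Fintype.card Z ≤ n → 3 ≤ k → k ≤ n → ∀ ε : ℝ, 0 < ε → ∀ H : Finset (X × Y × Z),
        Increasing H → ε * (n : ℝ) ^ 2 ≤ H.card →
        ∃ T ⊆ H, spanned T ≤ k ∧ ε ^ 4 * (k : ℝ) ^ 2 / 20736 ≤ T.card) ∧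
    -- (2) some `e` triples span at most `144 √e / ε ^ 2 + 1` vertices
    (∀ (X : Type u) (Y : Type v) (Z : Type w) [LinearOrder X] [LinearOrder Y] [LinearOrder Z]
      [Fintype X] [Fintype Y] [Fintype Z] (n e : ℕ) (ε : ℝ), Fintype.card X ≤ n →
      Fintype.card Y ≤ n → Fintype.card Z ≤ n → 1 ≤ e → 0 < ε →
      144 * Real.sqrt e / ε ^ 2 + 1 ≤ n → ∀ H : Finset (X × Y × Z),
        Increasing H → ε * (n : ℝ) ^ 2 ≤ H.card →
        ∃ T ⊆ H, T.card = e ∧ (spanned T : ℝ) ≤ 144 * Real.sqrt e / ε ^ 2 + 1) :=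
  ⟨fun _ _ _ _ _ _ _ _ _ _ _ hX hY hZ hk hkn _ hε _ hinc hH =>
    mono_dense hX hY hZ hk hkn hε hinc hH,
    fun _ _ _ _ _ _ _ _ _ _ _ _ hX hY hZ he hε hen _ hinc hH =>
    mono_edges hX hY hZ he hε hen hinc hH⟩

end Pool.Agent.Results.MP_c82047_co.IncreasingSystems
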