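import Pool.Agent.Q264.Bes.Major

/-!
# Brown-Erdős-Sós for triple systems closed under Mal'tsev or majority operations

Definitions (`Pool/Agent/Q264/Bes/Malt.lean`), for a finite set `H ⊆ X × Y × Z` of triples, the
vertices being the elements of `X`, `Y` and `Z`:

* `Sparse e H`: any `e` triples of `H` span more than `e + 3` vertices (`k = e + 3` in the problem);
* `Closed3 p q r H`: `H` is closed under the componentwise ternary operation `(p, q, r)`;
* `IsMaltsev p`: `p a a b = b = p b a a`; `IsMajority p`: `p a a b = p a b a = p b a a = a`;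
* `NY H x` and `NZ H x`: the neighbours of `x` in `Y` and in `Z`; `RectY H`, `RectZ H`: any two of
  the sets `NY H x` (of the sets `NZ H x`) are equal or disjoint.
-/

set_option autoImplicit false

namespace Pool.Agent.Results.MP_c82047_co.MaltsevMajority

open Pool.Agent.Q264.Bes

universe u v w

theorem result :
    -- (1) two rectangular projections
    (∀ (e : ℕ) (X : Type u) (Y : Type v) (Z : Type w) [Fintype X] [Fintype Y] [Fintype Z]
      (H : Finset (X × Y × Z)), 1 ≤ e → RectY H → RectZ H → Sparse e H →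
        (H.card : ℝ) ≤ ((e : ℝ) - 1) * (Fintype.card X +
          Real.sqrt (Fintype.card X * Fintype.card Y * Fintype.card Z))) ∧
    -- (2) in particular, systems closed under Mal'tsev operations
    (∀ (e : ℕ) (X : Type u) (Y : Type v) (Z : Type w) [Fintype X] [Fintype Y] [Fintype Z]
      (p : X → X → X → X) (q : Y → Y → Y → Y) (r : Z → Z → Z → Z) (H : Finset (X × Y × Z)),
      1 ≤ e → IsMaltsev p → IsMaltsev q → IsMaltsev r → Closed3 p q r H → Sparse e H →
        (H.card : ℝ) ≤ ((e : ℝ) - 1) * (Fintype.card X +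
          Real.sqrt (Fintype.card X * Fintype.card Y * Fintype.card Z))) ∧
    -- (3) the exponent `3 / 2` is sharp for `3 ≤ e ≤ 16`: here `X`, `Y`, `Z` have `m ^ 2` elements
    (∀ (m : ℕ) [NeZero m],
      ∃ H : Finset ((ZMod m × ZMod m) × (ZMod m × ZMod m) × (ZMod m × ZMod m)),
        Closed3 (fun a b c => a - b + c) (fun a b c => a - b + c) (fun a b c => a - b + c) H ∧
        H.card = m ^ 3 ∧ ∀ e : ℕ, 3 ≤ e → e ≤ 16 → Sparse e H) ∧
    -- (4) systems closed under majority operations
    (∀ (e : ℕ) (ε : ℝ), 0 < ε → ∃ N : ℕ, ∀ n : ℕ, N ≤ n →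
      ∀ (X : Type u) (Y : Type v) (Z : Type w) [Fintype X] [Fintype Y] [Fintype Z],
        Fintype.card X ≤ n → Fintype.card Y ≤ n → Fintype.card Z ≤ n →
      ∀ (p : X → X → X → X) (q : Y → Y → Y → Y) (r : Z → Z → Z → Z),
        IsMajority p → IsMajority q → IsMajority r →
      ∀ H : Finset (X × Y × Z), Closed3 p q r H → Sparse e H →
        (H.card : ℝ) ≤ ε * (n : ℝ) ^ 2) := by
  refine ⟨?_, ?_, ?_, ?_⟩
  · intro e X Y Z _ _ _ H he hY hZ hH
    exact rect_bound he hH hY hZ
  · intro e X Y Z _ _ _ p q r H he hp hq hr hcl hH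
    exact rect_bound he hH (rectY_of_maltsev hp hq hcl) (rectZ_of_maltsev hp hr hcl)
  · intro m _
    exact ⟨Tri m, Tri_closed m, card_Tri m, fun e h3 h16 => Tri_sparse m h3 h16⟩
  · intro e ε hε
    exact majority_bound e ε hε

end Pool.Agent.Results.MP_c82047_co.MaltsevMajority
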