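import Pool.Agent.TH468.BA.Triple
import Pool.Agent.Q54.OD.Use

/-!
# Triple systems and groups: few exceptional orders, all orders in short windows (MP_c82047_co)

There are functions `K₀(δ)` and `C(δ, k)` for which we consider the following property of `m`, where
`B = (s log m) ^ (M log log m)`. Let `G` be ANY finite group of order at most `s m` which acts by automorphisms on a
triple system `H` such that every vertex is fixed by `G` or lies in an orbit with `m` elements (for instance a partial
Latin square and a group of order `m` which acts freely on the rows and on the symbols and fixes all columns). Let `w` be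
the number of vertices in orbits with `m` elements, `δ > 0`, `k ≥ K₀(δ)` and `m ≥ C(δ, k) B`. If some such vertex lies in
more than `C(δ, k) (B w / m) ^ (1 + δ)` triples, or more than `w` times as many triples contain such a vertex, then some
`k` vertices span at least `k + ⌊k / K₀(δ)⌋` triples.

1. For every `A` there is `K` such that this holds for all `m ≤ x` with at most `x / log ^ A x` exceptions, for all `s`
   simultaneously; so it holds also for almost all `m` of every set with at least `x / log ^ B x` elements up to `x`, for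
   instance for almost all `m = p - 1`, `p` prime.
2. For `0 < θ < 1` and all real `y ∈ [N ^ (1 - θ), 2 N ^ (1 - θ)]` outside a set of measure at most
   `N ^ (1 - θ - κ)` it holds for ALL `m` in the windows of radius `log ^ A N` around the multiples `k y`,
   `k ≤ N ^ θ`, with at most `N ^ θ / log ^ U N` exceptional `k`.
3. Let `b k ≥ exp (k ^ δ)` be integers, for instance `b k = 2 ^ k`. For almost every real `α > 0` and all large `k` it
   holds for ALL `m` in the window of radius `(log (b k)) ^ A` around `α b k`.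

From Mathlib: `volume`: the Lebesgue measure; `∀ᵐ α : ℝ`: for almost all real `α`; `∀ᶠ k in atTop`: for all large `k`.

Proof. For most `m` the primes `p > y = (s log m) ^ O(1)` which divide `m` divide it only once and no divisor `> 1` of
the order of the group is congruent to `1` modulo such a `p`; the product of the Sylow subgroups for these primes is a
cyclic group which acts freely (starting files, `TH669.AD`), and the theorem of the starting files for abelian groups
applies. New is a bound with `log ^ A x` saved for the number of exceptions, uniformly in `s`, from an Euler product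
estimate for the part of `m` composed of the primes `p ≤ y`. The windows are treated by the count of the elements of
arbitrary sparse sets near the multiples of real numbers (starting files, `Pool.Agent.H438R2.DL`, in the form of
helper319, `Pool.Agent.Q319.DR`).
-/

set_option autoImplicit false

namespace Pool.Agent.Results.MP_c82047_co.OrdersInWindows

open Filter MeasureTheory

/-- `SparseTriple K C m s B`: for every finite set `V`, every finite group `G` of order at most
`s m` acting on `V` such that every orbit has `m` elements or one element, every set `H` of triples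
in `V` which is invariant under `G`, all `δ > 0` and `k ≥ K(δ)` with `C(δ, k) B ≤ m`, `w` being the
number of vertices in orbits with `m` elements: if more than `C(δ, k) w (B w / m) ^ (1 + δ)` triples
of `H` contain such a vertex, or some such vertex lies in more than
`C(δ, k) (B w / m) ^ (1 + δ)` triples of `H`, then some `k` vertices span at least
`k + ⌊k / K(δ)⌋` triples of `H`. -/
def SparseTriple (K : ℝ → ℕ) (C : ℝ → ℕ → ℕ) (m s : ℕ) (B : ℝ) : Prop :=
  ∀ (V G : Type) [Fintype V] [DecidableEq V] [Group G] [Finite G] [MulAction G V],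
    Nat.card G ≤ s * m →
    (∀ v : V, (MulAction.orbit G v).ncard = m ∨ (MulAction.orbit G v).ncard = 1) →
    ∀ H : Finset (Finset V), (∀ e ∈ H, e.card = 3) →
      (∀ (a : G), ∀ e ∈ H, e.image (fun x => a • x) ∈ H) →
    ∀ δ : ℝ, 0 < δ → ∀ k : ℕ, K δ ≤ k → (C δ k : ℝ) * B ≤ m →
    ∀ w : ℕ, w = {v : V | (MulAction.orbit G v).ncard = m}.ncard →
      (C δ k : ℝ) * w * (B * w / m) ^ (1 + δ) <
          ({e : Finset V | e ∈ H ∧ ∃ v ∈ e, (MulAction.orbit G v).ncard = m}.ncard : ℕ) ∨
        (∃ v : V, (MulAction.orbit G v).ncard = m ∧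
          (C δ k : ℝ) * (B * w / m) ^ (1 + δ) < ((H.filter fun e => v ∈ e).card : ℕ)) →
      ∃ S : Finset V, S.card = k ∧ k + k / K δ ≤ (H.filter fun e => e ⊆ S).card

/-- The property holds for all `s ≥ 1`, with `B = (s log m) ^ (M log log m)`. -/
def Good (K : ℝ → ℕ) (C : ℝ → ℕ → ℕ) (M m : ℕ) : Prop :=
  ∀ s : ℕ, 1 ≤ s → SparseTriple K C m s ((s * Real.log m) ^ ((M : ℝ) * Real.log (Real.log m)))

open Classical in
/-- The number of the `k` with `1 ≤ k ≤ X` for which not all natural numbers `m` at a distance of at most `w` from `k y`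
have the property `P`. -/
noncomputable def exceptions (X y w : ℝ) (P : ℕ → Prop) : ℕ :=
  ((Finset.Icc 1 ⌊X⌋₊).filter (fun k : ℕ => ∃ n : ℕ, |(n : ℝ) - k * y| ≤ w ∧ ¬ P n)).card

lemma few : ∃ (K : ℝ → ℕ) (C : ℝ → ℕ → ℕ), (∀ δ : ℝ, 0 < δ → 1 ≤ K δ) ∧
    Pool.Agent.Q54.OD.Few (Good K C) := by
  obtain ⟨K, C, h⟩ := Pool.Agent.TH468.BA.exists_fun_triple
  refine ⟨K, C, fun δ hδ => (h δ hδ).1, Pool.Agent.Q54.OD.few_of (Good K C) fun M m hM hm hg => ?_⟩
  intro s hs
  obtain ⟨y, hsy, hgd⟩ := hg s hs
  exact Pool.Agent.TH468.BA.triple_of_good h (Pool.Agent.Q54.OD.two_le_loss hM hs hm) hsy hgd (by omega)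

/-- `Good K₀ C M m`: the property `SparseTriple K₀ C m s B` holds for all `s ≥ 1`, with `B = (s log m) ^ (M log log m)`.
1. For every `A` there is `K` such that for all large `x` at most `x / log ^ A x` of the `m ≤ x` are not good.
2. For `0 < θ < 1` there is `κ > 0` such that for all `A`, `U` there is `K` such that for all large `N` there is a set
   `E` of real numbers of measure at most `N ^ (1 - θ - κ)` with: for every real `y` with
   `N ^ (1 - θ) ≤ y ≤ 2 N ^ (1 - θ)` outside `E` and for all `k ≤ N ^ θ`, with at most `N ^ θ / log ^ U N` exceptions,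
   ALL `m` with `|m - k y| ≤ log ^ A N` are good.
3. For all `A` and `δ > 0` there is `K` such that for all integers `b k` with `b k ≥ exp (k ^ δ)` for large `k` and for
   almost every real `α > 0`, for all large `k`, ALL `m` with `|m - α b k| ≤ (log (b k)) ^ A` are good. -/
theorem result : ∃ (K₀ : ℝ → ℕ) (C : ℝ → ℕ → ℕ), (∀ δ : ℝ, 0 < δ → 1 ≤ K₀ δ) ∧
    (∀ A : ℕ, ∃ K x₀ : ℕ, ∀ x : ℕ, x₀ ≤ x →
      ({m : ℕ | 1 ≤ m ∧ m ≤ x ∧ ¬ Good K₀ C K m}.ncard : ℝ) ≤ x / Real.log x ^ A) ∧
    (∀ θ : ℝ, 0 < θ → θ < 1 → ∃ κ : ℝ, 0 < κ ∧ ∀ A U : ℕ, ∃ K N₀ : ℕ, ∀ N : ℕ, N₀ ≤ N →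
      ∃ E : Set ℝ, MeasurableSet E ∧ volume E ≤ ENNReal.ofReal ((N : ℝ) ^ (1 - θ - κ)) ∧
        ∀ y : ℝ, (N : ℝ) ^ (1 - θ) ≤ y → y ≤ 2 * (N : ℝ) ^ (1 - θ) → y ∉ E →
          (exceptions ((N : ℝ) ^ θ) y (Real.log N ^ A) (Good K₀ C K) : ℝ) ≤ (N : ℝ) ^ θ / Real.log N ^ U) ∧
    (∀ (A : ℕ) (δ : ℝ), 0 < δ → ∃ K : ℕ, ∀ b : ℕ → ℕ, (∀ᶠ k : ℕ in atTop, Real.exp ((k : ℝ) ^ δ) ≤ b k) →
      ∀ᵐ α : ℝ, 0 < α → ∀ᶠ k : ℕ in atTop, ∀ m : ℕ, |(m : ℝ) - α * b k| ≤ Real.log (b k) ^ A → Good K₀ C K m) := by
  obtain ⟨K, C, hK, h⟩ := few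
  exact ⟨K, C, hK, h, Pool.Agent.Q54.OD.multiples (Good K C) h, Pool.Agent.Q54.OD.dilates (Good K C) h⟩

end Pool.Agent.Results.MP_c82047_co.OrdersInWindows
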