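import Pool.Agent.Q266.HY.Lin

set_option autoImplicit false

/-!
# The Brown–Erdős–Sós conjecture for homogeneous partial Latin squares

A set `K` of functions `Fin 3 → Fin m` is a set of entries (row, column, symbol) of an `m × m` array.
`Reg K q`: each row, each column and each symbol has exactly `q` entries. `verts T`: the rows,
columns and symbols of the entries in `T`.
-/

namespace Pool.Agent.Results.MP_c82047_co.RegularForm

open Finset Pool.Agent.Q266.HY

/-- **The Brown–Erdős–Sós conjecture is a statement on homogeneous partial Latin squares.**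

For each `k ≥ 4` the following are equivalent.

(1) `t(n, F_3(k, k - 3)) = o(n ^ 2)`: for every `c > 0` and all large `n`, every triple system on `n`
vertices with at least `c n ^ 2` triples has `k` vertices which span at least `k - 3` triples.

(2) For every `c > 0` and all large `m`, every `q`-homogeneous partial Latin square of order `m` with
`q ≥ c m` (a partial Latin square in which each row has exactly `q` filled cells, each column has
exactly `q` filled cells and each symbol is used exactly `q` times) has `k - 3` filled cells which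
together use at most `k` rows, columns and symbols. -/
theorem result (k : ℕ) (hk : 4 ≤ k) :
    (∀ c : ℝ, 0 < c → ∃ N : ℕ, ∀ n ≥ N, ∀ H : Finset (Finset (Fin n)), (∀ x ∈ H, x.card = 3) →
      c * (n : ℝ) ^ 2 ≤ H.card →
      ∃ S : Finset (Fin n), S.card = k ∧ k - 3 ≤ (H.filter fun x => x ⊆ S).card) ↔
    (∀ c : ℝ, 0 < c → ∃ N : ℕ, ∀ m ≥ N, ∀ (q : ℕ) (K : Finset (Fin 3 → Fin m)),
      c * (m : ℝ) ≤ q → Reg K q →
      (∀ a ∈ K, ∀ b ∈ K, a ≠ b → (univ.filter fun i => a i = b i).card ≤ 1) →
      ∃ T ⊆ K, T.card = k - 3 ∧ (verts T).card ≤ k) := by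
  classical
  constructor
  · intro hA c hc
    obtain ⟨N, hN⟩ := hA (c / 9) (by positivity)
    refine ⟨N, fun m hm q K hq hreg _ => ?_⟩
    have h1 : c / 9 * ((3 * m : ℕ) : ℝ) ^ 2 ≤ (toH K).card := by
      rw [card_toH, hreg.card (by norm_num)]
      push_cast
      have h2 : (m : ℝ) * (c * m) ≤ m * q := mul_le_mul_of_nonneg_left hq (Nat.cast_nonneg _)
      linarith
    obtain ⟨S, hS, h2⟩ := hN (3 * m) (by omega) (toH K) (unif_toH K) h1
    obtain ⟨T, hT, hTc⟩ := exists_subset_card_eq h2
    obtain ⟨T0, h3, h4, h5, -⟩ := toH_sub (hT.trans (filter_subset _ _))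
    refine ⟨T0, h3, h4.trans hTc, ?_⟩
    rw [← h5, ← hS]
    refine card_le_card ?_
    intro v hv
    obtain ⟨x, hx, hvx⟩ := mem_biUnion.1 hv
    exact (mem_filter.1 (hT hx)).2 hvx
  · intro hB
    by_contra hA
    push Not at hA
    obtain ⟨c, hc, hA⟩ := hA
    have hk0 : (0 : ℝ) < k := by exact_mod_cast (show 0 < k by omega)
    obtain ⟨c', hc', has⟩ := asym 3 (by norm_num) 2 (c / (3 * k)) (by norm_num) (by positivity)
    obtain ⟨N, hN⟩ := hB c' hc'
    obtain ⟨N', hN'⟩ := has N
    obtain ⟨n, hn, H, hH, hcH, hfree⟩ := hA (max N' k)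
    have hnk : k ≤ n := le_trans (le_max_right _ _) hn
    obtain ⟨L, hL, hlin, hcard⟩ := exists_linear H hH k
      fun p hp => codegree hk hnk H hH hfree p hp
    have hLc : c / (3 * k) * (n : ℝ) ^ (2 : ℝ) ≤ L.card := by
      rw [Real.rpow_two]
      have h1 : (H.card : ℝ) ≤ 3 * k * L.card := by exact_mod_cast hcard
      have h2 : c * (n : ℝ) ^ 2 ≤ 3 * k * L.card := hcH.trans h1
      rw [div_mul_eq_mul_div, div_le_iff₀ (by positivity)]
      linarith
    obtain ⟨q, m, K, ρ, hm, hq, hreg, h1, h2⟩ := hN' n (le_trans (le_max_left _ _) hn) L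
      (fun x hx => hH x (hL hx)) hLc
    have e1 : (2 : ℝ) - 1 = 1 := by norm_num
    rw [e1, Real.rpow_one] at hq
    obtain ⟨T, hT, hTc, hTv⟩ := hN m hm q K hq hreg (by
      intro a ha b hb hab
      have h3 : (univ.image (fun i => ρ i (a i))) ≠ univ.image (fun i => ρ i (b i)) :=
        fun h => hab (h2 ha hb h)
      have h4 := hlin _ (h1 a ha) _ (h1 b hb) h3
      have h5 : Function.Injective fun i => ρ i (a i) := by
        have h6 : (univ.image (fun i => ρ i (a i))).card = (univ : Finset (Fin 3)).card := by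
          rw [hH _ (hL (h1 a ha))]
          rfl
        have h7 := card_image_iff.1 h6
        rwa [coe_univ, Set.injOn_univ] at h7
      refine le_trans ?_ h4
      rw [← card_image_of_injective _ h5]
      refine card_le_card ?_
      intro v hv
      obtain ⟨i, hi, rfl⟩ := mem_image.1 hv
      refine mem_inter.2 ⟨mem_image.2 ⟨i, mem_univ _, rfl⟩, mem_image.2 ⟨i, mem_univ _, ?_⟩⟩
      rw [(mem_filter.1 hi).2])
    have h3 : (T.image fun k => univ.image (fun i => ρ i (k i))) ⊆ H := by
      intro x hx
      obtain ⟨a, ha, rfl⟩ := mem_image.1 hx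
      exact hL (h1 a (hT ha))
    obtain ⟨S, hS, hSc⟩ := span_of_union hnk H _ h3 ((card_image_le_verts ρ T).trans hTv)
    rw [card_image_of_injOn (h2.mono (coe_subset.2 hT)), hTc] at hSc
    have := hfree S hS
    omega

end Pool.Agent.Results.MP_c82047_co.RegularForm
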